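import Mathlib

/-!
# The Lindelöf number of a dense subspace of a monotonically normal space

We prove: if `X` is monotonically normal and `Y` is dense in `X` then `l(X) ≤ l(Y)`.

Idea.  Let `κ = l(Y)` and let `𝒰` be an open cover of `X`; at most `κ` members of `𝒰` cover `Y`; let
`V₀` be their union and `F` its complement.
* `discrete_le`: every (relatively) discrete subset of `F` has at most `κ` points.
* `cover_of_spread`: in a monotonically normal space a subset all of whose discrete subsets have at most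
  `κ` points is covered by at most `κ` members of any open cover.
-/

set_option autoImplicit false

open Set
open Cardinal hiding univ

universe u

namespace Pool.Agent.Results.MP_d81239_gt.LindelofDense

/-- `X` is monotonically normal: it is `T₁` and there is an operator `H`, assigning to each open
`U` and each `x ∈ U` an open set `H x U` with `x ∈ H x U ⊆ U`, such that `H x U ∩ H y V ≠ ∅`
implies `x ∈ V` or `y ∈ U`.  (The values of `H x U` for other pairs `x, U` are irrelevant.) -/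
def MonotonicallyNormal (X : Type u) [TopologicalSpace X] : Prop :=
  T1Space X ∧ ∃ H : X → Set X → Set X,
    (∀ x U, IsOpen U → x ∈ U → IsOpen (H x U) ∧ x ∈ H x U ∧ H x U ⊆ U) ∧
    ∀ x U y V, IsOpen U → x ∈ U → IsOpen V → y ∈ V →
      (H x U ∩ H y V).Nonempty → x ∈ V ∨ y ∈ U

/-- The Lindelöf number: the least infinite cardinal `κ` such that every open cover of `X` has a
subcover of cardinality at most `κ`. -/
noncomputable def lindelofNumber (X : Type u) [TopologicalSpace X] : Cardinal.{u} :=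
  sInf {κ : Cardinal.{u} | ℵ₀ ≤ κ ∧ ∀ 𝒰 : Set (Set X), (∀ U ∈ 𝒰, IsOpen U) → ⋃₀ 𝒰 = univ →
    ∃ 𝒱 ⊆ 𝒰, ⋃₀ 𝒱 = univ ∧ #𝒱 ≤ κ}

theorem lindelofNumber_spec (X : Type u) [TopologicalSpace X] :
    ℵ₀ ≤ lindelofNumber X ∧ ∀ 𝒰 : Set (Set X), (∀ U ∈ 𝒰, IsOpen U) → ⋃₀ 𝒰 = univ →
    ∃ 𝒱 ⊆ 𝒰, ⋃₀ 𝒱 = univ ∧ #𝒱 ≤ lindelofNumber X := by
  have hne : {κ : Cardinal.{u} | ℵ₀ ≤ κ ∧ ∀ 𝒰 : Set (Set X), (∀ U ∈ 𝒰, IsOpen U) → ⋃₀ 𝒰 = univ →
    ∃ 𝒱 ⊆ 𝒰, ⋃₀ 𝒱 = univ ∧ #𝒱 ≤ κ}.Nonempty := by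
    refine ⟨max ℵ₀ #(Set X), le_max_left _ _, fun 𝒰 _ h => ⟨𝒰, subset_rfl, h, ?_⟩⟩
    exact (Cardinal.mk_subtype_le _).trans (le_max_right _ _)
  exact csInf_mem hne

section MN

variable {X : Type u} [TopologicalSpace X] [T1Space X] (H : X → Set X → Set X)
  (h1 : ∀ x U, IsOpen U → x ∈ U → IsOpen (H x U) ∧ x ∈ H x U ∧ H x U ⊆ U)
  (h2 : ∀ x U y V, IsOpen U → x ∈ U → IsOpen V → y ∈ V →
      (H x U ∩ H y V).Nonempty → x ∈ V ∨ y ∈ U)

include h1 h2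

omit [T1Space X] in
/-- A discrete set outside an open set containing `Y` has at most `κ` points. -/
theorem discrete_le (V₀ Y : Set X) (hV₀ : IsOpen V₀) (hYV : Y ⊆ V₀) (hY : Dense Y)
    (κ : Cardinal.{u})
    (hκ : ∀ 𝒰 : Set (Set Y), (∀ U ∈ 𝒰, IsOpen U) → ⋃₀ 𝒰 = univ →
      ∃ 𝒱 ⊆ 𝒰, ⋃₀ 𝒱 = univ ∧ #𝒱 ≤ κ)
    (D : Set X) (hDV : ∀ d ∈ D, d ∉ V₀)
    (hD : ∀ d ∈ D, ∃ U, IsOpen U ∧ d ∈ U ∧ ∀ d' ∈ D, d' ∈ U → d' = d) : #D ≤ κ := by
  classical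
  have hD' : ∀ d : X, ∃ U, d ∈ D → (IsOpen U ∧ d ∈ U ∧ ∀ d' ∈ D, d' ∈ U → d' = d) := by
    intro d
    by_cases hd : d ∈ D
    · obtain ⟨U, hU⟩ := hD d hd
      exact ⟨U, fun _ => hU⟩
    · exact ⟨univ, fun h => absurd h hd⟩
  choose U hU using hD'
  let G : X → Set X := fun d => H d (U d)
  have hG : ∀ d ∈ D, IsOpen (G d) ∧ d ∈ G d ∧ G d ⊆ U d := fun d hd =>
    h1 d (U d) (hU d hd).1 (hU d hd).2.1
  let G' : X → Set X := fun d => H d (G d)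
  have hG' : ∀ d ∈ D, IsOpen (G' d) ∧ d ∈ G' d ∧ G' d ⊆ G d := fun d hd =>
    h1 d (G d) (hG d hd).1 (hG d hd).2.1
  have hO : ∀ y : Y, ∃ O, IsOpen O ∧ y.1 ∈ O ∧
      ∀ d ∈ D, ∀ d' ∈ D, (O ∩ G' d).Nonempty → (O ∩ G' d').Nonempty → d = d' := by
    intro y
    by_cases hy : ∃ d ∈ D, y.1 ∈ G d
    · obtain ⟨d₀, hd₀, hyd₀⟩ := hy
      refine ⟨G d₀, (hG d₀ hd₀).1, hyd₀, ?_⟩
      have key : ∀ d ∈ D, (G d₀ ∩ G' d).Nonempty → d = d₀ := by
        intro d hd hne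
        have hne' : (G d₀ ∩ G d).Nonempty := hne.mono
          (inter_subset_inter_right _ (hG' d hd).2.2)
        rcases h2 d₀ (U d₀) d (U d) (hU d₀ hd₀).1 (hU d₀ hd₀).2.1 (hU d hd).1 (hU d hd).2.1 hne'
          with h | h
        · exact ((hU d hd).2.2 d₀ hd₀ h).symm
        · exact (hU d₀ hd₀).2.2 d hd h
      intro d hd d' hd' hne hne'
      rw [key d hd hne, key d' hd' hne']
    · push Not at hy
      have hyV : y.1 ∈ V₀ := hYV y.2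
      refine ⟨H y V₀, (h1 y V₀ hV₀ hyV).1, (h1 y V₀ hV₀ hyV).2.1, ?_⟩
      intro d hd d' _ hne _
      exfalso
      rcases h2 y V₀ d (G d) hV₀ hyV (hG d hd).1 (hG d hd).2.1 hne with h | h
      · exact hy d hd h
      · exact hDV d hd h
  choose O hO1 hO2 hO3 using hO
  obtain ⟨𝒱, h𝒱1, h𝒱2, h𝒱3⟩ := hκ (range fun y : Y => (Subtype.val ⁻¹' (O y) : Set Y)) (by
    rintro _ ⟨y, rfl⟩
    exact (hO1 y).preimage continuous_subtype_val) (by
    rw [sUnion_range]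
    exact iUnion_eq_univ_iff.2 fun y => ⟨y, hO2 y⟩)
  have hpick : ∀ d : D, ∃ V : 𝒱, ∃ z : Y, z ∈ V.1 ∧ z.1 ∈ G' d.1 := by
    rintro ⟨d, hd⟩
    obtain ⟨z, hzG, hzY⟩ := hY.inter_open_nonempty (G' d) (hG' d hd).1 ⟨d, (hG' d hd).2.1⟩
    have : (⟨z, hzY⟩ : Y) ∈ ⋃₀ 𝒱 := by rw [h𝒱2]; trivial
    obtain ⟨V, hV, hzV⟩ := this
    exact ⟨⟨V, hV⟩, ⟨z, hzY⟩, hzV, hzG⟩
  choose φ z hφ hz using hpick
  refine le_trans (Cardinal.mk_le_of_injective (f := φ) ?_) h𝒱3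
  intro d d' hdd
  obtain ⟨y, hy⟩ := h𝒱1 (φ d).2
  have e1 : (z d).1 ∈ O y := by
    have := hφ d
    rw [← hy] at this
    exact this
  have e2 : (z d').1 ∈ O y := by
    have := hφ d'
    rw [← hdd, ← hy] at this
    exact this
  exact Subtype.ext (hO3 y d.1 d.2 d'.1 d'.2 ⟨_, e1, hz d⟩ ⟨_, e2, hz d'⟩)

/-- If all discrete subsets of `F` have at most `κ` points, then `F` is covered by at most `κ`
members of any family of open sets covering it. -/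
theorem cover_of_spread (κ : Cardinal.{u}) (hκ : ℵ₀ ≤ κ) (F : Set X)
    (hs : ∀ D ⊆ F, (∀ d ∈ D, ∃ U, IsOpen U ∧ d ∈ U ∧ ∀ d' ∈ D, d' ∈ U → d' = d) → #D ≤ κ)
    (𝒰 : Set (Set X)) (h𝒰 : ∀ U ∈ 𝒰, IsOpen U) (hF : F ⊆ ⋃₀ 𝒰) :
    ∃ 𝒱 ⊆ 𝒰, F ⊆ ⋃₀ 𝒱 ∧ #𝒱 ≤ κ := by
  classical
  by_contra hcon
  -- the index set, of order type the successor of `κ`
  let I : Type u := (Order.succ κ).ord.ToType
  have hreg : (Order.succ κ).IsRegular := isRegular_succ hκ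
  have hmkI : #I = Order.succ κ := mk_ord_toType _
  have : NoMaxOrder I := Cardinal.noMaxOrder (hκ.trans (Order.le_succ _))
  have : Nonempty I := by
    rw [← Cardinal.mk_ne_zero_iff, hmkI]
    exact hreg.pos.ne'
  have hIio : ∀ a : I, #(Iio a) ≤ κ := fun a => Order.lt_succ_iff.1 (by
    have := Cardinal.mk_Iio_lt a (by simp [I])
    rwa [hmkI] at this)
  have hbdd : ∀ (M : Type u) (φ : M → I), #M ≤ κ → ∃ b, ∀ m, φ m < b := by
    intro M φ hM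
    by_contra hc
    push Not at hc
    have e1 : IsCofinal (range φ) := by
      intro a
      obtain ⟨m, hm⟩ := hc a
      exact ⟨φ m, ⟨m, rfl⟩, hm⟩
    have e2 := Order.cof_le e1
    rw [Ordinal.cof_toType, hreg.cof_ord] at e2
    have e3 : #(range φ) ≤ κ := Cardinal.mk_range_le.trans hM
    exact absurd (e2.trans e3) (not_le.2 (Order.lt_succ _))
  have hbddS : ∀ S : Set I, #S ≤ κ → ∃ b, ∀ a ∈ S, a < b := by
    intro S hS
    obtain ⟨b, hb⟩ := hbdd S Subtype.val hS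
    exact ⟨b, fun a ha => hb ⟨a, ha⟩⟩
  -- a right-separated sequence
  let P : Type u := {q : X × Set X // q.1 ∈ F ∧ q.2 ∈ 𝒰 ∧ q.1 ∈ q.2}
  have hstep : ∀ (a : I) (rec : ∀ b, b < a → P), ∃ q : P, ∀ b (hb : b < a),
      q.1.1 ∉ (rec b hb).1.2 := by
    intro a rec
    by_contra hc
    push Not at hc
    apply hcon
    refine ⟨range (fun b : Iio a => (rec b.1 b.2).1.2), ?_, ?_, ?_⟩
    · rintro _ ⟨b, rfl⟩
      exact (rec b.1 b.2).2.2.1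
    · intro x hx
      obtain ⟨U, hU, hxU⟩ := hF hx
      obtain ⟨b, hb, hxb⟩ := hc ⟨(x, U), hx, hU, hxU⟩
      exact ⟨_, ⟨⟨b, hb⟩, rfl⟩, hxb⟩
    · exact Cardinal.mk_range_le.trans (hIio a)
  choose step hstep using hstep
  let p : I → P := wellFounded_lt.fix step
  have hp : ∀ a b, a < b → (p b).1.1 ∉ (p a).1.2 := by
    intro a b hab
    have e1 : p b = step b (fun c _ => p c) := wellFounded_lt.fix_eq step b
    rw [e1]
    exact hstep b (fun c _ => p c) a hab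
  let x : I → X := fun a => (p a).1.1
  let U : I → Set X := fun a => (p a).1.2
  have hxF : ∀ a, x a ∈ F := fun a => (p a).2.1
  have hUo : ∀ a, IsOpen (U a) := fun a => h𝒰 _ (p a).2.2.1
  have hxU : ∀ a, x a ∈ U a := fun a => (p a).2.2.2
  have hsep : ∀ a b, a < b → x b ∉ U a := hp
  have hxinj : ∀ a b, a < b → x a ≠ x b := fun a b hab h => hsep a b hab (h ▸ hxU a)
  -- there is a small set `A` of indices dense for the later ones
  have hA : ∃ A : Set I, #A ≤ κ ∧ ∀ α, (∀ a ∈ A, a < α) → x α ∈ closure (x '' A) := by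
    by_contra hc
    push Not at hc
    have hstep' : ∀ (ξ : I) (rec : ∀ η, η < ξ → I), ∃ α : I, (∀ η (hη : η < ξ), rec η hη < α) ∧
        x α ∉ closure (x '' {β | ∃ η, ∃ hη : η < ξ, rec η hη = β}) := by
      intro ξ rec
      have e1 : #{β | ∃ η, ∃ hη : η < ξ, rec η hη = β} ≤ κ := by
        refine le_trans ?_ (hIio ξ)
        have e2 : {β | ∃ η, ∃ hη : η < ξ, rec η hη = β} =
            range (fun η : Iio ξ => rec η.1 η.2) := by
          ext β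
          constructor
          · rintro ⟨η, hη, rfl⟩
            exact ⟨⟨η, hη⟩, rfl⟩
          · rintro ⟨η, rfl⟩
            exact ⟨η.1, η.2, rfl⟩
        rw [e2]
        exact Cardinal.mk_range_le
      obtain ⟨α, hα1, hα2⟩ := hc _ e1
      exact ⟨α, fun η hη => hα1 _ ⟨η, hη, rfl⟩, hα2⟩
    choose step' hstep' using hstep'
    let s : I → I := wellFounded_lt.fix step'
    have hs1 : ∀ ξ, s ξ = step' ξ (fun η _ => s η) := fun ξ => wellFounded_lt.fix_eq step' ξ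
    have hs2 : ∀ η ξ, η < ξ → s η < s ξ := by
      intro η ξ hη
      rw [hs1 ξ]
      exact (hstep' ξ (fun η _ => s η)).1 η hη
    have hs3 : ∀ ξ, x (s ξ) ∉ closure (x '' {β | ∃ η, ∃ _ : η < ξ, s η = β}) := by
      intro ξ
      have := (hstep' ξ (fun η _ => s η)).2
      rw [← hs1 ξ] at this
      exact this
    have hD := hs (range (fun ξ => x (s ξ))) (by rintro _ ⟨ξ, rfl⟩; exact hxF _) (by
      rintro _ ⟨ξ, rfl⟩
      refine ⟨U (s ξ) ∩ (closure (x '' {β | ∃ η, ∃ _ : η < ξ, s η = β}))ᶜ,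
        (hUo _).inter isClosed_closure.isOpen_compl, ⟨hxU _, hs3 ξ⟩, ?_⟩
      rintro _ ⟨η, rfl⟩ ⟨e1, e2⟩
      rcases lt_trichotomy η ξ with h | h | h
      · exact (e2 (subset_closure ⟨s η, ⟨η, h, rfl⟩, rfl⟩)).elim
      · rw [h]
      · exact absurd e1 (hsep _ _ (hs2 _ _ h)))
    have e1 : #I ≤ #(range (fun ξ => x (s ξ))) := by
      rw [Cardinal.mk_range_eq]
      intro η ξ h
      rcases lt_trichotomy η ξ with h' | h' | h'
      · exact absurd h (hxinj _ _ (hs2 _ _ h'))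
      · exact h'
      · exact absurd h.symm (hxinj _ _ (hs2 _ _ h'))
    rw [hmkI] at e1
    exact absurd (e1.trans hD) (not_le.2 (Order.lt_succ _))
  obtain ⟨A, hAκ, hA⟩ := hA
  obtain ⟨a₀, ha₀⟩ := hbddS A hAκ
  have hA' : ∀ α, a₀ ≤ α → x α ∈ closure (x '' A) := fun α hα =>
    hA α (fun a ha => (ha₀ a ha).trans_le hα)
  let G : I → Set X := fun a => H (x a) (U a)
  have hG : ∀ a, IsOpen (G a) ∧ x a ∈ G a ∧ G a ⊆ U a := fun a => h1 _ _ (hUo a) (hxU a)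
  let W : I → Set X := fun a => H (x a) (G a)
  have hW : ∀ a, IsOpen (W a) ∧ x a ∈ W a ∧ W a ⊆ G a := fun a => h1 _ _ (hG a).1 (hG a).2.1
  have hpig : ∃ e, ∀ b, ∃ α, b < α ∧ x e ∈ W α := by
    by_contra hc
    push Not at hc
    choose b hb using hc
    obtain ⟨c, hc⟩ := hbdd A (fun a => b a.1) hAκ
    obtain ⟨d, hd⟩ := exists_gt (max a₀ c)
    have e1 := hA' d ((le_max_left _ _).trans hd.le)
    rw [mem_closure_iff] at e1
    obtain ⟨_, e2, ⟨a, haA, rfl⟩⟩ := e1 (W d) (hW d).1 (hW d).2.1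
    exact hb a d (((hc ⟨a, haA⟩).trans_le (le_max_right _ _)).trans hd) e2
  obtain ⟨e, he⟩ := hpig
  let S : Set I := {α | x e ∈ W α}
  have hSG : ∀ α ∈ S, ∀ β ∈ S, α < β → x α ∈ G β := by
    intro α hα β hβ hαβ
    rcases h2 (x α) (G α) (x β) (G β) (hG α).1 (hG α).2.1 (hG β).1 (hG β).2.1 ⟨x e, hα, hβ⟩
      with h | h
    · exact h
    · exact absurd ((hG α).2.2 h) (hsep _ _ hαβ)
  have hnotcl : ∀ δ ∈ S, ∀ γ, δ < γ → x γ ∉ closure (x '' (S ∩ Iio δ)) := by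
    intro δ hδ γ hγ hcl
    have hne : x γ ∈ ({x δ}ᶜ : Set X) := fun h => hxinj _ _ hγ (mem_singleton_iff.1 h).symm
    have ho : IsOpen ({x δ}ᶜ : Set X) := isOpen_compl_singleton
    have hH := h1 (x γ) _ ho hne
    rw [mem_closure_iff] at hcl
    obtain ⟨_, e1, ⟨α, ⟨hαS, hαδ⟩, rfl⟩⟩ := hcl _ hH.1 hH.2.1
    rcases h2 (x γ) _ (x δ) (U δ) ho hne (hUo δ) (hxU δ) ⟨x α, e1, hSG α hαS δ hδ hαδ⟩ with h | h
    · exact hsep _ _ hγ h
    · exact h rfl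
  have hσ : ∀ δ, ∃ γ, γ ∈ S ∧ δ < γ ∧ ∀ γ' ∈ S, δ < γ' → γ ≤ γ' := by
    intro δ
    have hne : {γ | γ ∈ S ∧ δ < γ}.Nonempty := by
      obtain ⟨α, hα1, hα2⟩ := he δ
      exact ⟨α, hα2, hα1⟩
    have e1 := wellFounded_lt.min_mem _ hne
    exact ⟨_, e1.1, e1.2, fun γ' hγ' hδγ' => wellFounded_lt.min_le (s := {γ | γ ∈ S ∧ δ < γ})
      ⟨hγ', hδγ'⟩⟩
  choose σ hσ1 hσ2 hσ3 using hσ
  have hσmono : ∀ δ δ', δ' ∈ S → δ < δ' → σ δ < σ δ' := fun δ δ' h' h =>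
    (hσ3 δ δ' h' h).trans_lt (hσ2 δ')
  have hD := hs (range (fun δ : S => x (σ δ.1))) (by rintro _ ⟨ξ, rfl⟩; exact hxF _) (by
    rintro _ ⟨⟨δ, hδ⟩, rfl⟩
    refine ⟨U (σ δ) ∩ (closure (x '' (S ∩ Iic δ)))ᶜ,
        (hUo _).inter isClosed_closure.isOpen_compl, ⟨hxU _, ?_⟩, ?_⟩
    · have e1 : S ∩ Iic δ = (S ∩ Iio δ) ∪ {δ} := by
        ext γ
        simp only [mem_inter_iff, mem_Iic, mem_union, mem_Iio, mem_singleton_iff]
        constructor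
        · rintro ⟨h, h'⟩
          rcases h'.lt_or_eq with h'' | h''
          · exact Or.inl ⟨h, h''⟩
          · exact Or.inr h''
        · rintro (⟨h, h'⟩ | h)
          · exact ⟨h, h'.le⟩
          · rw [h]; exact ⟨hδ, le_rfl⟩
      rw [e1, image_union, closure_union, image_singleton, closure_singleton]
      rintro (h | h)
      · exact hnotcl δ hδ _ (hσ2 δ) h
      · exact hxinj _ _ (hσ2 δ) (mem_singleton_iff.1 h).symm
    · rintro _ ⟨⟨δ', hδ'⟩, rfl⟩ ⟨e1, e2⟩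
      show x (σ δ') = x (σ δ)
      have e1' : x (σ δ') ∈ U (σ δ) := e1
      rcases lt_trichotomy (σ δ') (σ δ) with h | h | h
      · exfalso
        have e3 : σ δ' ≤ δ := by
          by_contra hlt
          exact absurd (hσ3 δ (σ δ') (hσ1 δ') (not_le.1 hlt)) (not_le.2 h)
        exact e2 (subset_closure ⟨σ δ', ⟨hσ1 δ', e3⟩, rfl⟩)
      · rw [h]
      · exact absurd e1' (hsep _ _ h))
  have hSκ : #S ≤ κ := by
    refine le_trans ?_ hD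
    rw [Cardinal.mk_range_eq]
    rintro ⟨δ, hδ⟩ ⟨δ', hδ'⟩ h
    have h' : x (σ δ) = x (σ δ') := h
    rcases lt_trichotomy δ δ' with h'' | h'' | h''
    · exact absurd h' (hxinj _ _ (hσmono _ _ hδ' h''))
    · exact Subtype.ext h''
    · exact absurd h'.symm (hxinj _ _ (hσmono _ _ hδ h''))
  obtain ⟨b, hb⟩ := hbddS S hSκ
  obtain ⟨α, hα1, hα2⟩ := he b
  exact absurd (hb α hα2) (not_lt.2 hα1.le)

end MN

/-- **Theorem.** If `X` is monotonically normal and `Y` is dense in `X` then `l(X) ≤ l(Y)`. -/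
theorem result (X : Type u) [TopologicalSpace X] (hX : MonotonicallyNormal X)
    (Y : Set X) (hY : Dense Y) : lindelofNumber X ≤ lindelofNumber Y := by
  obtain ⟨hT1, H, h1, h2⟩ := hX
  obtain ⟨hκ, hcov⟩ := lindelofNumber_spec Y
  set κ := lindelofNumber Y with hκdef
  apply csInf_le'
  refine ⟨hκ, fun 𝒰 h𝒰 hU => ?_⟩
  -- cover `Y`
  have hY1 : ∃ 𝒰₀ ⊆ 𝒰, Y ⊆ ⋃₀ 𝒰₀ ∧ #𝒰₀ ≤ κ := by
    obtain ⟨𝒱, h𝒱1, h𝒱2, h𝒱3⟩ := hcov ((fun U => (Subtype.val ⁻¹' U : Set Y)) '' 𝒰) (by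
      rintro _ ⟨U, hU, rfl⟩
      exact (h𝒰 U hU).preimage continuous_subtype_val) (by
      rw [sUnion_eq_univ_iff]
      intro y
      have : y.1 ∈ ⋃₀ 𝒰 := by rw [hU]; trivial
      obtain ⟨U, hU, hyU⟩ := this
      exact ⟨_, ⟨U, hU, rfl⟩, hyU⟩)
    have hch : ∀ V : 𝒱, ∃ U ∈ 𝒰, (Subtype.val ⁻¹' U : Set Y) = V.1 := fun V => h𝒱1 V.2
    choose f hf1 hf2 using hch
    refine ⟨range f, ?_, ?_, Cardinal.mk_range_le.trans h𝒱3⟩
    · rintro _ ⟨V, rfl⟩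
      exact hf1 V
    · intro y hy
      have : (⟨y, hy⟩ : Y) ∈ ⋃₀ 𝒱 := by rw [h𝒱2]; trivial
      obtain ⟨V, hV, hyV⟩ := this
      refine ⟨f ⟨V, hV⟩, ⟨⟨V, hV⟩, rfl⟩, ?_⟩
      have e1 := hf2 ⟨V, hV⟩
      have e2 : (⟨y, hy⟩ : Y) ∈ (Subtype.val ⁻¹' (f ⟨V, hV⟩) : Set Y) := by
        rw [e1]; exact hyV
      exact e2
  obtain ⟨𝒰₀, h𝒰₀1, h𝒰₀2, h𝒰₀3⟩ := hY1
  have hVo : IsOpen (⋃₀ 𝒰₀) := isOpen_sUnion fun U hU => h𝒰 U (h𝒰₀1 hU)
  obtain ⟨𝒱, h𝒱1, h𝒱2, h𝒱3⟩ := cover_of_spread H h1 h2 κ hκ (⋃₀ 𝒰₀)ᶜ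
    (fun D hD1 hD2 => discrete_le H h1 h2 (⋃₀ 𝒰₀) Y hVo h𝒰₀2 hY κ hcov D hD1 hD2)
    𝒰 h𝒰 (by rw [hU]; exact subset_univ _)
  refine ⟨𝒰₀ ∪ 𝒱, union_subset h𝒰₀1 h𝒱1, ?_, ?_⟩
  · rw [sUnion_union]
    rw [eq_univ_iff_forall]
    intro x
    by_cases hx : x ∈ ⋃₀ 𝒰₀
    · exact Or.inl hx
    · exact Or.inr (h𝒱2 hx)
  · refine (Cardinal.mk_union_le _ _).trans ?_
    exact (add_le_add h𝒰₀3 h𝒱3).trans (Cardinal.add_eq_self hκ).le

end Pool.Agent.Results.MP_d81239_gt.LindelofDense
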